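import Pool.Agent.LE.StmtsH

/-!
# No eigenvalue in the intersection of open sets of vanishing spectral measure
-/

set_option autoImplicit false

open MeasureTheory ProbabilityTheory Function Filter

open scoped ENNReal BigOperators InnerProductSpace Topology

noncomputable section

namespace Pool.Agent.LE.CH.H35

open Pool.Agent.Anderson Pool.Agent.Loc Pool.Agent.Mob Pool.Agent.Helper54.Bal Pool.Agent.LE.CH

theorem exists_box {d : ℕ} (x : Site d) : ∃ n : ℕ, x ∈ box (0 : Site d) n := by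
  refine ⟨∑ i, (x i).natAbs, ?_⟩
  rw [mem_box]
  refine Finset.sup_le fun i _ => ?_
  have h1 : (x i).natAbs ≤ ∑ i, (x i).natAbs :=
    Finset.single_le_sum (f := fun i => (x i).natAbs) (fun j _ => Nat.zero_le _) (Finset.mem_univ i)
  have h2 : ((0 : Site d) i - x i).natAbs = (x i).natAbs := by
    rw [Pi.zero_apply, zero_sub, Int.natAbs_neg]
  rw [h2]
  exact h1

theorem nul (wte : WteStmt) : NulStmt := by
  intro d V U hU hS E hE φ hφ
  have key : ∀ x : Site d, φ x = 0 := by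
    intro x
    obtain ⟨n, hn⟩ := exists_box x
    have hb : ∀ ε : ℝ, 0 < ε → ‖φ x‖ ^ 2 ≤ 2 * ‖φ‖ ^ 2 * ε := by
      intro ε hε
      obtain ⟨k, hk⟩ := hS n ε hε
      obtain ⟨s, hs, hsU⟩ := Metric.isOpen_iff.1 (hU k) E (hE k)
      rw [Real.ball_eq_Ioo] at hsU
      have hev : ∀ᶠ m : ℕ in atTop, 1 / ((m : ℝ) + 1) ≤ s := by
        have h0 := (tendsto_one_div_add_atTop_nhds_zero_nat (𝕜 := ℝ)).eventually (gt_mem_nhds hs)
        exact h0.mono fun m hm => le_of_lt hm
      obtain ⟨m, hm1, hm2⟩ := (hk.and_eventually hev).exists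
      have hη : (0 : ℝ) < 1 / ((m : ℝ) + 1) := by positivity
      have h1 := (wte d V (U k) (1 / ((m : ℝ) + 1)) s E φ hη hs hφ).2 hm2 hsU (del x)
      have h2 : wt V (U k) (1 / ((m : ℝ) + 1)) (del x) ≤ ENNReal.ofReal ε := by
        refine le_trans ?_ (le_of_lt hm1)
        exact Finset.single_le_sum
          (f := fun x => wt V (U k) (1 / ((m : ℝ) + 1)) (del x)) (fun j _ => bot_le) hn
      have h3 : ENNReal.ofReal (‖⟪φ, del x⟫_ℂ‖ ^ 2) ≤ ENNReal.ofReal (2 * ‖φ‖ ^ 2 * ε) := by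
        rw [ENNReal.ofReal_mul (by positivity)]
        exact h1.trans (by gcongr)
      rw [inner_del_right, RCLike.norm_conj] at h3
      exact (ENNReal.ofReal_le_ofReal_iff (by positivity)).1 h3
    have h4 : ‖φ x‖ ^ 2 ≤ 0 := by
      refine le_of_forall_pos_le_add fun δ hδ => ?_
      have h5 := hb (δ / (2 * ‖φ‖ ^ 2 + 1)) (by positivity)
      have h6 : 2 * ‖φ‖ ^ 2 * (δ / (2 * ‖φ‖ ^ 2 + 1)) ≤ δ := by
        rw [← mul_div_assoc, div_le_iff₀ (by positivity)]
        nlinarith [sq_nonneg ‖φ‖]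
      linarith
    have h7 : ‖φ x‖ = 0 := by nlinarith [norm_nonneg (φ x), sq_nonneg ‖φ x‖]
    exact norm_eq_zero.1 h7
  ext x
  rw [key x]
  rfl

end Pool.Agent.LE.CH.H35
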